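import Pool.Agent.H7.JB.Stmts
import Pool.Agent.H29.HZ.RFG

/-! Board jb14 (MP_fd41b2_co), row RFGW: copy of `Pool.HZ7.RFG_thm` (helper29) with `PrW`. -/

set_option autoImplicit false

open Finset

namespace Pool.JB7

open Pool.Agent.H23.KT Pool.Agent.H46.KW Pool.KQ Pool.GT7 Pool.GU7 Pool.HZ7

theorem rfgw_aux (hEST : ESTStmt) (hTCT : TCTStmt) (p r a : ℕ) (hP : PrW p r) (N : ℕ)
    (hN : N = (p + 4) * a + (r + 1)) : ∃ R : SimpleGraph (Fin N),
    (∀ v, (R.neighborSet v).ncard ≤ (p + 3) * a + r) ∧ R.CliqueFree (p + 5) ∧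
    kx p r a ≤ ({s : Finset (Fin N) | R.IsNClique 3 s}.ncard : ℝ) := by
  subst hN
  obtain ⟨q, hq⟩ : ∃ q, r + q = p + 3 := ⟨p + 3 - r, by have := hP.rp; omega⟩
  have hr := hP.rp
  have hq2 : 2 ≤ q := by omega
  refine ⟨rfgR p r q a, rfg_deg hq hq2 hr, ?_, ?_⟩
  · have h1 := SimpleGraph.turanGraph_cliqueFree (n := (p + 4) * a + (r + 1)) (r := p + 4)
      (by omega)
    exact h1.anti (rfgR_le p r q a)
  · have h1 := hTCT p 3 a (r + 1) (by omega)
    have h2 := rfg_count (a := a) hq hq2 hr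
    rw [show (p + 2) * a + (r + 1) = ((p + 2) * a + r) + 1 by ring, rfg_sum] at h2
    have h3 := h1.trans h2
    have hpr : p + 3 - r = q := by omega
    unfold kx Xz
    rw [hpr]
    by_cases he : Even (q * a)
    · rw [if_pos he] at h3 ⊢
      have h4 : ((TT (p + 4) 3 a (r + 1) : ℕ) : ℝ) ≤ (({s : Finset (Fin ((p + 4) * a + (r + 1))) |
        (rfgR p r q a).IsNClique 3 s}.ncard + q * a / 2 * ((p + 2) * a + r + 1) : ℕ) : ℝ) := by
        exact_mod_cast h3
      obtain ⟨K, hK⟩ := he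
      have hK2 : q * a / 2 = K := by omega
      rw [hK2] at h4
      push_cast at h4
      have h5 : (q : ℝ) * a = K + K := by exact_mod_cast hK
      rw [h5]
      nlinarith
    · rw [if_neg he] at h3 ⊢
      have h4 : ((TT (p + 4) 3 a (r + 1) : ℕ) : ℝ) ≤ (({s : Finset (Fin ((p + 4) * a + (r + 1))) |
        (rfgR p r q a).IsNClique 3 s}.ncard + (q * a / 2 * ((p + 2) * a + r + 1) +
          ((p + 2) * a + r)) : ℕ) : ℝ) := by
        exact_mod_cast h3
      rw [Nat.not_even_iff_odd] at he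
      obtain ⟨K, hK⟩ := he
      have hK2 : q * a / 2 = K := by omega
      rw [hK2] at h4
      push_cast at h4
      have h5 : (q : ℝ) * a = 2 * K + 1 := by exact_mod_cast hK
      rw [h5]
      nlinarith

theorem RFGW_thm (hEST : ESTStmt) (hTCT : TCTStmt) : RFGWStmt := by
  intro p r a hP _
  exact rfgw_aux hEST hTCT p r a hP _ (by ring)

end Pool.JB7
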